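import Pool.Agent.H91.Sym.A2

/-! Module G2 of project SYM: the fibre inequality (the statement of G1 is a hypothesis). -/

set_option autoImplicit false
set_option linter.unusedSectionVars false

open MeasureTheory Set Filter Topology
open scoped ContDiff Pointwise

namespace Pool.Agent.H84.Sym

open Pool.Agent.H84

universe v

variable {E : Type v} [NormedAddCommGroup E] [InnerProductSpace ℝ E]
    [FiniteDimensional ℝ E] [MeasurableSpace E] [BorelSpace E]

/-- The statement of module G1 (`fibre_pc`). -/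
def FibrePC.{w} : Prop :=
  ∀ (E : Type w) [NormedAddCommGroup E] [InnerProductSpace ℝ E] [FiniteDimensional ℝ E]
    [MeasurableSpace E] [BorelSpace E] (V : E → ℝ) (t C β : ℝ) (m : ℕ), Pot V t C → 0 < β →
    (∀ x : E, 0 ≤ fderiv ℝ V x x) → Module.finrank ℝ E ≤ m → 1 ≤ m →
    GPC (mu (fun x => V x + 2 * β * Real.sqrt ((m / β) ^ 2 + ‖x‖ ^ 2))) (20 * m / β ^ 2)

/-- The weight. -/
noncomputable def om (S : Submodule ℝ E) (m : ℕ) (β : ℝ) (x : E) : ℝ :=
  Real.exp (-(2 * β * (ph S (m / β) x - m / β)))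

namespace G2aux

/-- Integration over a subspace and its orthogonal complement. -/
theorem integral_decomp (S : Submodule ℝ E) {F : E → ℝ} (hF : Integrable F) :
    ∫ x, F x = ∫ z : Sᗮ, ∫ s : S, F ((s : E) + (z : E)) ∧
    Integrable (fun z : Sᗮ => ∫ s : S, F ((s : E) + (z : E))) := by
  have h1 : MeasurePreserving (S.orthogonalDecomposition.symm) volume volume :=
    S.orthogonalDecomposition.symm.measurePreserving
  have h2 : MeasurePreserving (@WithLp.toLp 2 (S × Sᗮ)) volume volume :=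
    WithLp.volume_preserving_toLp S Sᗮ
  have e : (fun p : S × Sᗮ => (p.1 : E) + (p.2 : E)) =
      (S.orthogonalDecomposition.symm) ∘ (@WithLp.toLp 2 (S × Sᗮ)) := by
    ext p
    simp
  have h3 : MeasurePreserving (fun p : S × Sᗮ => (p.1 : E) + (p.2 : E)) volume volume := by
    rw [e]
    exact h1.comp h2
  have hemb : MeasurableEmbedding (fun p : S × Sᗮ => (p.1 : E) + (p.2 : E)) := by
    have e1 : MeasurableEmbedding (@WithLp.toLp 2 (S × Sᗮ)) :=
      (MeasurableEquiv.toLp 2 (S × Sᗮ)).measurableEmbedding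
    have e2 : MeasurableEmbedding (S.orthogonalDecomposition.symm) :=
      S.orthogonalDecomposition.symm.toHomeomorph.measurableEmbedding
    rw [e]
    exact e2.comp e1
  have hI : Integrable (fun p : S × Sᗮ => F ((p.1 : E) + (p.2 : E))) (volume.prod volume) :=
    (h3.integrable_comp_emb hemb).2 hF
  rw [← h3.integral_comp hemb]
  exact ⟨integral_prod_symm _ hI, hI.integral_prod_right⟩

section Alg

variable (g : E ≃ₗᵢ[ℝ] E)

/-- The moved subspace. -/
noncomputable abbrev MS : Submodule ℝ E := Mv (g.toLinearEquiv : E →ₗ[ℝ] E)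

theorem mem_ker {z : E} :
    z ∈ LinearMap.ker ((g.toLinearEquiv : E →ₗ[ℝ] E) - LinearMap.id) ↔ g z = z := by
  rw [LinearMap.mem_ker, LinearMap.sub_apply, LinearMap.id_apply, sub_eq_zero]
  rfl

theorem fixed_of_mem {z : E} (hz : z ∈ (MS g)ᗮ) : g z = z := by
  rw [MS, Mv, Submodule.orthogonal_orthogonal] at hz
  exact (mem_ker g).1 hz

theorem map_mem {s : E} (hs : s ∈ MS g) : g s ∈ MS g := by
  rw [MS, Mv, Submodule.mem_orthogonal] at hs ⊢
  intro w hw
  have h1 : g w = w := (mem_ker g).1 hw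
  rw [← h1, g.inner_map_map]
  exact hs w hw

/-- The restriction of `g` to the moved subspace. -/
noncomputable def gS : MS g ≃ₗᵢ[ℝ] MS g :=
  LinearIsometry.toLinearIsometryEquiv
    { toLinearMap := (g.toLinearEquiv : E →ₗ[ℝ] E).restrict (p := MS g) (q := MS g)
        (fun _ hs => map_mem g hs)
      norm_map' := fun s => g.norm_map s } rfl

theorem gS_apply (s : MS g) : ((gS g s : MS g) : E) = g s := rfl

theorem eq_zero_of_fixed {s : MS g} (h : gS g s = s) : s = 0 := by
  have h1 : g (s : E) = s := by rw [← gS_apply, h]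
  have h2 : (s : E) ∈ LinearMap.ker ((g.toLinearEquiv : E →ₗ[ℝ] E) - LinearMap.id) :=
    (mem_ker g).2 h1
  have h3 : inner ℝ (s : E) (s : E) = 0 := (Submodule.mem_orthogonal _ _).1 s.2 _ h2
  ext
  simpa using h3

theorem functional_zero {ℓ : MS g →L[ℝ] ℝ} (h : ∀ s, ℓ (gS g s) = ℓ s) : ℓ = 0 := by
  set p := (InnerProductSpace.toDual ℝ (MS g)).symm ℓ with hp
  have h1 : ∀ s, inner ℝ p s = ℓ s := fun s => InnerProductSpace.toDual_symm_apply
  have h2 : gS g p = p := by
    apply ext_inner_right ℝ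
    intro s
    have h3 : inner ℝ (gS g p) s = inner ℝ p ((gS g).symm s) := by
      conv_lhs => rw [← (gS g).apply_symm_apply s]
      exact (gS g).inner_map_map _ _
    rw [h3, h1, h1, ← h, (gS g).apply_symm_apply]
  have h4 := eq_zero_of_fixed g h2
  ext s
  rw [← h1, h4]
  simp

end Alg

section Fib

variable {U : E → ℝ} {t C : ℝ}

/-- The potential on a fibre. -/
noncomputable def VV (S : Submodule ℝ E) (U : E → ℝ) (z : E) (s : S) : ℝ := U ((s : E) + z)

theorem hasFDerivAt_shift (S : Submodule ℝ E) {F : Type*} [NormedAddCommGroup F] [NormedSpace ℝ F]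
    {f : E → F} (z : E) {s : S} (hf : DifferentiableAt ℝ f ((s : E) + z)) :
    HasFDerivAt (fun s : S => f ((s : E) + z)) ((fderiv ℝ f ((s : E) + z)).comp S.subtypeL) s := by
  have h1 : HasFDerivAt (fun s : S => (s : E) + z) (S.subtypeL) s :=
    S.subtypeL.hasFDerivAt.add_const z
  exact hf.hasFDerivAt.comp s h1

theorem contDiff_shift (S : Submodule ℝ E) {F : Type*} [NormedAddCommGroup F] [NormedSpace ℝ F]
    {f : E → F} (z : E) {n : WithTop ℕ∞} (hf : ContDiff ℝ n f) :
    ContDiff ℝ n (fun s : S => f ((s : E) + z)) :=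
  hf.comp (S.subtypeL.contDiff.add contDiff_const)

theorem fderiv_VV (hU : Pot U t C) (S : Submodule ℝ E) (z : E) (s : S) :
    fderiv ℝ (VV S U z) s = (fderiv ℝ U ((s : E) + z)).comp S.subtypeL :=
  (hasFDerivAt_shift S z (hU.smooth.differentiable (by norm_num) _)).fderiv

theorem pot_VV (hU : Pot U t C) (S : Submodule ℝ E) (z : E) :
    Pot (VV S U z) t (C * (1 + ‖z‖)) where
  smooth := contDiff_shift S z hU.smooth
  pos := hU.pos
  hess := by
    intro s v
    have e1 : fderiv ℝ (VV S U z) = fun s : S => (fderiv ℝ U ((s : E) + z)).comp S.subtypeL :=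
      funext fun s => fderiv_VV hU S z s
    have hd : DifferentiableAt ℝ (fderiv ℝ U) ((s : E) + z) :=
      (hU.smooth.fderiv_right (m := 1) (by norm_num)).differentiable (by norm_num) _
    have h2 := hasFDerivAt_shift S z hd
    have h3 : HasFDerivAt (fun s : S => (fderiv ℝ U ((s : E) + z)).comp S.subtypeL)
        (((ContinuousLinearMap.compL ℝ S E ℝ).flip S.subtypeL).comp
          ((fderiv ℝ (fderiv ℝ U) ((s : E) + z)).comp S.subtypeL)) s :=
      ((ContinuousLinearMap.compL ℝ S E ℝ).flip S.subtypeL).hasFDerivAt.comp s h2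
    rw [e1, h3.fderiv]
    have := hU.hess ((s : E) + z) (v : E)
    simpa using this
  grad := by
    intro s
    rw [fderiv_VV hU]
    have hC : 0 ≤ C := by
      have := (norm_nonneg _).trans (hU.grad 0)
      simpa using this
    have h1 : ‖(fderiv ℝ U ((s : E) + z)).comp S.subtypeL‖ ≤ ‖fderiv ℝ U ((s : E) + z)‖ := by
      refine (ContinuousLinearMap.opNorm_comp_le _ _).trans ?_
      exact mul_le_of_le_one_right (norm_nonneg _) (Submodule.norm_subtypeL_le S)
    have h2 : ‖(s : E) + z‖ ≤ ‖s‖ + ‖z‖ := norm_add_le _ _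
    calc _ ≤ ‖fderiv ℝ U ((s : E) + z)‖ := h1
      _ ≤ C * (1 + ‖(s : E) + z‖) := hU.grad _
      _ ≤ C * (1 + (‖s‖ + ‖z‖)) := by gcongr
      _ ≤ C * (1 + ‖z‖) * (1 + ‖s‖) := by
        have : 0 ≤ ‖s‖ * ‖z‖ := by positivity
        nlinarith

/-- Monotonicity of the gradient along rays. -/
theorem ray_mono {F : Type*} [NormedAddCommGroup F] [InnerProductSpace ℝ F] {V : F → ℝ} {t C : ℝ}
    (hV : Pot V t C) (x : F) : fderiv ℝ V 0 x ≤ fderiv ℝ V x x := by
  have hd2 : ∀ s : ℝ, HasDerivAt (fun s : ℝ => fderiv ℝ V (s • x) x)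
      (fderiv ℝ (fderiv ℝ V) (s • x) x x) s := by
    intro s
    have h1 : HasFDerivAt (fderiv ℝ V) (fderiv ℝ (fderiv ℝ V) (s • x)) (s • x) :=
      (((hV.smooth.fderiv_right (m := 1) (by norm_num)).differentiable (by norm_num))
        (s • x)).hasFDerivAt
    have h2 : HasDerivAt (fun s : ℝ => s • x) x s := by
      simpa using (hasDerivAt_id s).smul_const x
    have h3 : HasDerivAt (fun s : ℝ => fderiv ℝ V (s • x)) (fderiv ℝ (fderiv ℝ V) (s • x) x) s :=
      h1.comp_hasDerivAt s h2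
    have h4 := h3.clm_apply (hasDerivAt_const s x)
    simpa using h4
  have m1 : Monotone (fun s : ℝ => fderiv ℝ V (s • x) x) := by
    apply monotone_of_deriv_nonneg
    · exact fun s => (hd2 s).differentiableAt
    · intro s
      rw [(hd2 s).deriv]
      have h1 := hV.hess (s • x) x
      have h2 := hV.pos
      exact le_trans (by positivity) h1
  have := m1 (zero_le_one (α := ℝ))
  simpa using this

theorem VV_gS (g : E ≃ₗᵢ[ℝ] E) (hg : ∀ x, U (g x) = U x) {z : E} (hz : z ∈ (MS g)ᗮ) (s : MS g) :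
    VV (MS g) U z (gS g s) = VV (MS g) U z s := by
  unfold VV
  rw [gS_apply, ← hg ((s : E) + z), map_add, fixed_of_mem g hz]

theorem VV_min (hU : Pot U t C) (g : E ≃ₗᵢ[ℝ] E) (hg : ∀ x, U (g x) = U x) {z : E}
    (hz : z ∈ (MS g)ᗮ) (s : MS g) : 0 ≤ fderiv ℝ (VV (MS g) U z) s s := by
  have hV := pot_VV hU (MS g) z
  have h0 : fderiv ℝ (VV (MS g) U z) 0 = 0 := by
    apply functional_zero g
    intro s
    have h1 : HasFDerivAt (VV (MS g) U z) (fderiv ℝ (VV (MS g) U z) 0) (gS g 0) := by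
      rw [map_zero]
      exact (hV.smooth.differentiable (by norm_num) 0).hasFDerivAt
    have h2 : HasFDerivAt (fun y => gS g y) ((gS g).toContinuousLinearEquiv : MS g →L[ℝ] MS g) 0 :=
      (gS g).toContinuousLinearEquiv.hasFDerivAt
    have h3 := h1.comp (0 : MS g) h2
    have h4 : (VV (MS g) U z) ∘ (fun y => gS g y) = VV (MS g) U z :=
      funext fun y => VV_gS g hg hz y
    rw [h4] at h3
    have h5 := h3.fderiv
    have h6 := congrArg (fun L : MS g →L[ℝ] ℝ => L s) h5
    exact h6.symm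
  have := ray_mono hV s
  rwa [h0, zero_apply] at this

end Fib

section Main

variable {U : E → ℝ} {t C β : ℝ} {m : ℕ}

theorem tst_diff (g : E ≃ₗᵢ[ℝ] E) {u : E → ℝ} (hu : Tst u) : Tst (fun y => u (g y) - u y) := by
  have h1 : ContDiff ℝ ∞ (fun y => u (g y)) := hu.1.comp g.contDiff
  have h2 : HasCompactSupport (fun y => u (g y)) := hu.2.comp_homeomorph g.toHomeomorph
  exact ⟨h1.sub hu.1, h2.sub hu.2⟩

theorem hcs_shift (S : Submodule ℝ E) {F : Type*} [NormedAddCommGroup F] {f : E → F} (z : E)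
    (hf : HasCompactSupport f) : HasCompactSupport (fun s : S => f ((s : E) + z)) := by
  have hc : IsClosed (S : Set E) := S.closed_of_finiteDimensional
  have h1 : IsClosedEmbedding (fun s : S => (s : E)) := hc.isClosedEmbedding_subtypeVal
  have h2 : IsClosedEmbedding (fun s : S => (s : E) + z) :=
    (Homeomorph.addRight z).isClosedEmbedding.comp h1
  exact hf.comp_isClosedEmbedding h2

theorem continuous_om (S : Submodule ℝ E) : Continuous (om S m β) := by
  unfold om ph
  fun_prop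

theorem om_shift (hβ : 0 < β) (S : Submodule ℝ E) (s : S) (z : Sᗮ) :
    om S m β ((s : E) + (z : E)) * Real.exp (-U ((s : E) + (z : E))) =
      Real.exp (2 * m) *
        Real.exp (-(VV S U z s + 2 * β * Real.sqrt ((m / β) ^ 2 + ‖s‖ ^ 2))) := by
  have h1 : S.orthogonalProjectionOnto ((s : E) + (z : E)) = s := by
    rw [map_add, Submodule.orthogonalProjectionOnto_mem_subspace_eq_self]
    rw [Submodule.orthogonalProjectionOnto_eq_zero_iff.2 z.2, add_zero]
  unfold om ph VV
  rw [h1, ← Real.exp_add, ← Real.exp_add]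
  congr 1
  field_simp
  ring

theorem continuous_nS (S : Submodule ℝ E) :
    Continuous (fun ℓ : E →L[ℝ] ℝ => ‖ℓ.comp S.subtypeL‖ ^ 2) := by
  have h : Continuous (fun ℓ : E →L[ℝ] ℝ =>
      (ContinuousLinearMap.compL ℝ S E ℝ).flip S.subtypeL ℓ) :=
    ((ContinuousLinearMap.compL ℝ S E ℝ).flip S.subtypeL).continuous
  have h2 : Continuous (fun ℓ : E →L[ℝ] ℝ =>
      ‖(ContinuousLinearMap.compL ℝ S E ℝ).flip S.subtypeL ℓ‖) := Continuous.norm h
  exact h2.pow 2

theorem nS_zero (S : Submodule ℝ E) : ‖(0 : E →L[ℝ] ℝ).comp S.subtypeL‖ ^ 2 = 0 := by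
  rw [ContinuousLinearMap.zero_comp, ContinuousLinearMap.opNorm_zero]
  norm_num

/-- The inequality on one fibre. -/
theorem fibre_one (hpc : FibrePC.{v}) (hU : Pot U t C) (g : E ≃ₗᵢ[ℝ] E)
    (hg : ∀ x, U (g x) = U x) (hβ : 0 < β)
    (hm : Module.finrank ℝ (MS g) ≤ m) (hm1 : 1 ≤ m)
    {u : E → ℝ} (hu : Tst u) (z : (MS g)ᗮ) :
    ∫ s : MS g, (u (g ((s : E) + (z : E))) - u ((s : E) + (z : E))) ^ 2 *
        om (MS g) m β ((s : E) + (z : E)) * Real.exp (-U ((s : E) + (z : E))) ≤
      20 * m / β ^ 2 *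
        ∫ s : MS g, ‖(fderiv ℝ (fun y => u (g y) - u y) ((s : E) + (z : E))).comp
          (MS g).subtypeL‖ ^ 2 * om (MS g) m β ((s : E) + (z : E)) *
            Real.exp (-U ((s : E) + (z : E))) := by
  set ψ : E → ℝ := fun y => u (g y) - u y with hψ
  have hψt : Tst ψ := tst_diff g hu
  set f : MS g → ℝ := fun s => ψ ((s : E) + (z : E)) with hf
  set W : MS g → ℝ := fun s => VV (MS g) U z s + 2 * β * Real.sqrt ((m / β) ^ 2 + ‖s‖ ^ 2) with hW
  have hVp : Pot (VV (MS g) U z) t (C * (1 + ‖(z : E)‖)) := pot_VV hU (MS g) z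
  have hVc : Continuous (VV (MS g) U z) := hVp.smooth.continuous
  have hWc : Continuous W := by
    rw [hW]
    fun_prop
  have hfc1 : ContDiff ℝ 1 f := contDiff_shift (MS g) (z : E) (hψt.1.of_le (by norm_cast))
  have hfcs : HasCompactSupport f := hcs_shift (MS g) (z : E) hψt.2
  have hgpc : GPC (mu W) (20 * m / β ^ 2) :=
    hpc (MS g) (VV (MS g) U z) t _ β m hVp hβ (fun s => VV_min hU g hg z.2 s) hm hm1
  have h1 := hgpc f hfc1 hfcs
  -- the mean vanishes
  have hmean : ∫ s, f s ∂(mu W) = 0 := by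
    have hh : Continuous (fun s : MS g => u ((s : E) + (z : E))) :=
      (contDiff_shift (MS g) (z : E) hu.1).continuous
    have hhc : HasCompactSupport (fun s : MS g => u ((s : E) + (z : E))) :=
      hcs_shift (MS g) (z : E) hu.2
    have e1 : ∀ s : MS g, f s = u (((gS g s : MS g) : E) + (z : E)) - u ((s : E) + (z : E)) := by
      intro s
      rw [hf, hψ]
      simp only [map_add, fixed_of_mem g z.2, gS_apply]
    have e2 : ∫ s : MS g, u (((gS g s : MS g) : E) + (z : E)) ∂(mu W) =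
        ∫ s : MS g, u ((s : E) + (z : E)) ∂(mu W) := by
      apply integral_comp_isom hWc (gS g) _ (fun s : MS g => u ((s : E) + (z : E)))
      intro s
      rw [hW]
      simp only [VV_gS g hg z.2 s, LinearIsometryEquiv.norm_map]
    simp only [e1]
    rw [integral_sub, e2, sub_self]
    · exact integrable_mu hWc (hh.comp (gS g).continuous)
        (hhc.comp_homeomorph (gS g).toHomeomorph)
    · exact integrable_mu hWc hh hhc
  have hfin : IsFiniteMeasure (mu W) := by
    have h2 : IsFiniteMeasure (mu (VV (MS g) U z)) := isFinite_mu hVp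
    have h3 : mu W ≤ mu (VV (MS g) U z) := by
      unfold mu
      apply withDensity_mono
      refine Eventually.of_forall fun s => ?_
      apply ENNReal.ofReal_le_ofReal
      apply Real.exp_le_exp.2
      have : 0 ≤ 2 * β * Real.sqrt ((m / β) ^ 2 + ‖s‖ ^ 2) := by positivity
      rw [hW]
      simp only
      linarith
    exact isFiniteMeasure_of_le _ h3
  have hpos := mu_univ_pos hWc hfin
  rw [hmean] at h1
  have h4 : ∫ s, f s ^ 2 ∂(mu W) ≤ 20 * m / β ^ 2 * ∫ s, ‖fderiv ℝ f s‖ ^ 2 ∂(mu W) := by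
    have h5 : (mu W).real univ * (∫ s, f s ^ 2 ∂(mu W)) ≤
        (mu W).real univ * (20 * m / β ^ 2 * ∫ s, ‖fderiv ℝ f s‖ ^ 2 ∂(mu W)) := by
      calc _ ≤ _ := by simpa using h1
        _ = _ := by ring
    exact le_of_mul_le_mul_left h5 hpos
  rw [integral_mu hWc, integral_mu hWc] at h4
  have h6 : ∀ s : MS g, fderiv ℝ f s = (fderiv ℝ ψ ((s : E) + (z : E))).comp (MS g).subtypeL := fun s =>
    (hasFDerivAt_shift (MS g) (z : E) (hψt.1.differentiable (by norm_num) _)).fderiv
  have h7 : ∀ (G : MS g → ℝ), ∫ s : MS g, G s * om (MS g) m β ((s : E) + (z : E)) *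
      Real.exp (-U ((s : E) + (z : E))) = Real.exp (2 * m) * ∫ s : MS g, G s * Real.exp (-W s) := by
    intro G
    rw [← integral_const_mul]
    refine integral_congr_ae (Eventually.of_forall fun s => ?_)
    simp only
    rw [mul_assoc, om_shift hβ]
    ring
  have h8 := h7 (fun s => f s ^ 2)
  have h9 := h7 (fun s => ‖(fderiv ℝ ψ ((s : E) + (z : E))).comp (MS g).subtypeL‖ ^ 2)
  simp only [hf] at h8
  rw [h8, h9]
  simp only [h6] at h4
  simp only [hf] at h4
  have := mul_le_mul_of_nonneg_left h4 (Real.exp_pos (2 * (m:ℝ))).le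
  calc _ ≤ _ := this
    _ = _ := by ring

end Main

end G2aux

open G2aux in
theorem fibre_ineq_of (hpc : FibrePC.{v}) {U : E → ℝ} {t C β : ℝ} {m : ℕ} (hU : Pot U t C) (g : E ≃ₗᵢ[ℝ] E)
    (hg : ∀ x, U (g x) = U x) (hβ : 0 < β)
    (hm : Module.finrank ℝ (Mv (g.toLinearEquiv : E →ₗ[ℝ] E)) ≤ m) (hm1 : 1 ≤ m)
    {u : E → ℝ} (hu : Tst u) :
    ∫ x, (u (g x) - u x) ^ 2 * om (Mv (g.toLinearEquiv : E →ₗ[ℝ] E)) m β x ∂(mu U) ≤
      20 * m / β ^ 2 *
        ∫ x, ‖(fderiv ℝ (fun y => u (g y) - u y) x).comp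
          (Mv (g.toLinearEquiv : E →ₗ[ℝ] E)).subtypeL‖ ^ 2
            * om (Mv (g.toLinearEquiv : E →ₗ[ℝ] E)) m β x ∂(mu U) := by
  have hUc : Continuous U := hU.smooth.continuous
  have hψt : Tst (fun y => u (g y) - u y) := tst_diff g hu
  set ψ : E → ℝ := fun y => u (g y) - u y with hψ
  have hψc : Continuous ψ := hψt.1.continuous
  have hdc : Continuous (fderiv ℝ ψ) := hψt.1.continuous_fderiv (by norm_num)
  have hds : HasCompactSupport (fderiv ℝ ψ) := hψt.2.fderiv (𝕜 := ℝ)
  have hoc : Continuous (om (MS g) m β) := continuous_om (MS g)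
  have hec : Continuous (fun x => Real.exp (-U x)) := by fun_prop
  rw [integral_mu hUc, integral_mu hUc]
  have i1 : Integrable (fun x => (u (g x) - u x) ^ 2 * om (MS g) m β x * Real.exp (-U x)) := by
    apply Continuous.integrable_of_hasCompactSupport
    · exact ((hψc.pow 2).mul hoc).mul hec
    · have h1 : HasCompactSupport (fun x => ψ x ^ 2) := by
        have := hψt.2.comp_left (g := fun y : ℝ => y ^ 2) (by norm_num)
        exact this
      exact (h1.mul_right (f' := om (MS g) m β)).mul_right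
  have hn : Continuous (fun x => ‖(fderiv ℝ ψ x).comp (MS g).subtypeL‖ ^ 2) := by
    exact (continuous_nS (MS g)).comp hdc
  have i2 : Integrable (fun x => ‖(fderiv ℝ ψ x).comp (MS g).subtypeL‖ ^ 2 * om (MS g) m β x *
      Real.exp (-U x)) := by
    apply Continuous.integrable_of_hasCompactSupport
    · exact (hn.mul hoc).mul hec
    · have h1 : HasCompactSupport (fun x => ‖(fderiv ℝ ψ x).comp (MS g).subtypeL‖ ^ 2) := by
        have := hds.comp_left (g := fun ℓ : E →L[ℝ] ℝ => ‖ℓ.comp (MS g).subtypeL‖ ^ 2)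
          (nS_zero (MS g))
        exact this
      exact (h1.mul_right (f' := om (MS g) m β)).mul_right
  obtain ⟨d1, j1⟩ := integral_decomp (MS g) i1
  obtain ⟨d2, j2⟩ := integral_decomp (MS g) i2
  rw [d1, d2, ← integral_const_mul]
  refine integral_mono j1 (j2.const_mul _) fun z => ?_
  exact fibre_one hpc hU g hg hβ hm hm1 hu z

/-- A basis adapted to a subspace. -/
theorem adapted_basis (S : Submodule ℝ E) :
    ∃ (b : OrthonormalBasis (Fin (Module.finrank ℝ S) ⊕ Fin (Module.finrank ℝ Sᗮ)) ℝ E),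
      (∀ i, b (Sum.inl i) ∈ S) ∧ (∀ j, b (Sum.inr j) ∈ Sᗮ) ∧
      ∀ ℓ : E →L[ℝ] ℝ, ‖ℓ.comp S.subtypeL‖ ^ 2 = ∑ i, (ℓ (b (Sum.inl i))) ^ 2 := by
  set b1 := stdOrthonormalBasis ℝ S with hb1
  set b2 := stdOrthonormalBasis ℝ Sᗮ with hb2
  set b := (b1.prod b2).map S.orthogonalDecomposition.symm with hb
  have e1 : ∀ i, b (Sum.inl i) = (b1 i : E) := by
    intro i
    rw [hb]
    simp
  have e2 : ∀ j, b (Sum.inr j) = (b2 j : E) := by
    intro j
    rw [hb]
    simp
  refine ⟨b, fun i => ?_, fun j => ?_, fun ℓ => ?_⟩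
  · rw [e1]; exact (b1 i).2
  · rw [e2]; exact (b2 j).2
  · rw [nsq_clm b1]
    refine Finset.sum_congr rfl fun i _ => ?_
    rw [e1]
    rfl

end Pool.Agent.H84.Sym
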