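import Pool.Agent.H85.Sym.SecAux

/-! Project SYM2, module Q1: exponential moments of the sections of a symmetric convex body. -/

set_option autoImplicit false
set_option linter.unusedSectionVars false

open MeasureTheory Set Filter Topology
open scoped ContDiff Pointwise ENNReal

namespace Pool.Agent.H84.Sym

open Pool.Agent.H84

universe v

variable {E : Type v} [NormedAddCommGroup E] [InnerProductSpace ℝ E]
    [FiniteDimensional ℝ E] [MeasurableSpace E] [BorelSpace E]

namespace SecAux

/-- Midpoints for indicators. -/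
theorem ind_mul_le {K : Set E} (hK : Convex ℝ K) {f g h : E → ℝ}
    (hfg : ∀ u ∈ K, ∀ v ∈ K, f u * g v ≤ h ((2:ℝ)⁻¹ • (u + v)) ^ 2) (u v : E) :
    K.indicator f u * K.indicator g v ≤ K.indicator h ((2:ℝ)⁻¹ • (u + v)) ^ 2 := by
  by_cases hu : u ∈ K
  · by_cases hv : v ∈ K
    · have hm : (2:ℝ)⁻¹ • (u + v) ∈ K := by
        have := hK hu hv (a := (2:ℝ)⁻¹) (b := (2:ℝ)⁻¹) (by norm_num) (by norm_num) (by norm_num)
        rwa [← smul_add] at this
      rw [indicator_of_mem hu, indicator_of_mem hv, indicator_of_mem hm]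
      exact hfg u hu v hv
    · rw [indicator_of_notMem hv, mul_zero]
      positivity
  · rw [indicator_of_notMem hu, zero_mul]
    positivity

/-- The volumes of the sections are midpoint log-concave. -/
theorem vol_pl {K : Set E} {R : ℝ} (hK : CB K R) (S : Submodule ℝ E) (y y' : Sᗮ) :
    sI S (K.indicator fun _ => 1) y * sI S (K.indicator fun _ => 1) y' ≤
      sI S (K.indicator fun _ => 1) ((2:ℝ)⁻¹ • (y + y')) ^ 2 := by
  have hb : BB (K.indicator fun _ => (1:ℝ)) :=
    BB.of_ind hK continuous_const fun _ => zero_le_one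
  exact pl_sec S hb hb hb (ind_mul_le hK.conv
    fun _ _ _ _ => by norm_num) y y'

theorem vol_neg {K : Set E} (hsymm : ∀ x ∈ K, -x ∈ K) (S : Submodule ℝ E) (y : Sᗮ) :
    sI S (K.indicator fun _ => 1) (-y) = sI S (K.indicator fun _ => 1) y := by
  unfold sI
  rw [← integral_neg_eq_self]
  congr 1
  funext s
  have e : (((-s : S) : E) + ((-y : Sᗮ) : E)) = -((s : E) + (y : E)) := by
    simp only [Submodule.coe_neg]
    abel
  rw [e]
  by_cases h : (s : E) + (y : E) ∈ K
  · rw [indicator_of_mem h, indicator_of_mem (hsymm _ h)]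
  · rw [indicator_of_notMem h, indicator_of_notMem]
    intro h'
    apply h
    have := hsymm _ h'
    rwa [neg_neg] at this

/-- The central section is the largest. -/
theorem vol_le_zero {K : Set E} {R : ℝ} (hK : CB K R) (hsymm : ∀ x ∈ K, -x ∈ K)
    (S : Submodule ℝ E) (y : Sᗮ) :
    sI S (K.indicator fun _ => 1) y ≤ sI S (K.indicator fun _ => 1) 0 := by
  have hb : BB (K.indicator fun _ => (1:ℝ)) :=
    BB.of_ind hK continuous_const fun _ => zero_le_one
  have h := vol_pl hK S y (-y)
  rw [vol_neg hsymm, add_neg_cancel, smul_zero] at h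
  exact le_of_sq_le_sq (by rw [sq]; exact h) (sI_nonneg S hb 0)

theorem vol_pos {K : Set E} {R : ℝ} (hK : CB K R) (hsymm : ∀ x ∈ K, -x ∈ K)
    (S : Submodule ℝ E) : 0 < sI S (K.indicator fun _ => 1) 0 := by
  have hb : BB (K.indicator fun _ => (1:ℝ)) :=
    BB.of_ind hK continuous_const fun _ => zero_le_one
  rcases (sI_nonneg S hb 0).lt_or_eq with h | h
  · exact h
  exfalso
  have hz : ∀ y, sI S (K.indicator fun _ => 1) y = 0 := fun y =>
    le_antisymm ((vol_le_zero hK hsymm S y).trans h.symm.le) (sI_nonneg S hb y)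
  have h1 := integral_sI S hb
  simp only [hz, integral_zero] at h1
  rw [integral_indicator hK.meas, setIntegral_const, smul_eq_mul, mul_one] at h1
  have h2 : 0 < volume.real K := ENNReal.toReal_pos hK.vol0 hK.lt_top.ne
  linarith

end SecAux

open SecAux

theorem sec_moment {K : Set E} {R : ℝ} (hK : CB K R) (hsymm : ∀ x ∈ K, -x ∈ K)
    (S P : Submodule ℝ E) {γ : ℝ} (hγ : 0 < γ)
    (hM : ∫ x in K, Real.exp (γ * ‖P.orthogonalProjectionOnto x‖) ≤ 2 * volume.real K)
    (y : Sᗮ) :
    ∫ x : S in {x : S | (x : E) + (y : E) ∈ K},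
        Real.exp (γ * ‖P.orthogonalProjectionOnto ((x : E) + (y : E))‖) ≤
      4 ^ (Module.finrank ℝ Sᗮ + 2) * volume.real {x : S | (x : E) ∈ K} := by
  set p : E → ℝ := fun x => ‖P.orthogonalProjectionOnto x‖ with hp
  have hpc : Continuous p := by fun_prop
  have hp0 : ∀ x, 0 ≤ p x := fun x => norm_nonneg _
  have hpm : ∀ u v, p u - p v ≤ 2 * p ((2:ℝ)⁻¹ • (u + v)) := by
    intro u v
    have h1 : 2 * p ((2:ℝ)⁻¹ • (u + v)) = p (u + v) := by
      simp only [hp, map_smul, norm_smul, norm_inv, Real.norm_ofNat]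
      ring
    rw [h1]
    simp only [hp, map_add]
    have := norm_sub_le (P.orthogonalProjectionOnto u + P.orthogonalProjectionOnto v)
      (P.orthogonalProjectionOnto v)
    rw [add_sub_cancel_right] at this
    linarith
  set f : E → ℝ := fun x => Real.exp (γ * p x) with hf
  set g : E → ℝ := fun x => Real.exp (-(γ * p x)) with hg
  have hfc : Continuous f := by fun_prop
  have hgc : Continuous g := by fun_prop
  have hF : BB (K.indicator f) := BB.of_ind hK hfc fun _ => (Real.exp_pos _).le
  have hG : BB (K.indicator g) := BB.of_ind hK hgc fun _ => (Real.exp_pos _).le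
  have hA : BB (K.indicator fun _ => (1:ℝ)) := BB.of_ind hK continuous_const fun _ => zero_le_one
  set M := sI S (K.indicator f) with hMd
  set N := sI S (K.indicator g) with hNd
  set A := sI S (K.indicator fun _ => (1:ℝ)) with hAd
  have e1 : ∫ x : S in {x : S | (x : E) + (y : E) ∈ K},
      Real.exp (γ * ‖P.orthogonalProjectionOnto ((x : E) + (y : E))‖) = M y :=
    setIntegral_sec S hK.meas f y
  have e2 : volume.real {x : S | (x : E) ∈ K} = A 0 := by
    have := vol_sec S hK.meas (0 : Sᗮ)
    simpa using this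
  rw [e1, e2]
  have hM0 : ∀ z, 0 ≤ M z := sI_nonneg S hF
  have hN0 : ∀ z, 0 ≤ N z := sI_nonneg S hG
  have hA0 : 0 < A 0 := vol_pos hK hsymm S
  have hpl : ∀ z z' : Sᗮ, M z * N z' ≤ M ((2:ℝ)⁻¹ • (z + z')) ^ 2 := by
    apply pl_sec S hF hG hF
    apply ind_mul_le hK.conv
    intro u _ v _
    rw [← Real.exp_add, ← Real.exp_nat_mul]
    apply Real.exp_le_exp.mpr
    have := mul_le_mul_of_nonneg_left (hpm u v) hγ.le
    push_cast
    linarith
  have hNA : ∀ z, N z ≤ A 0 := by
    intro z
    refine (sI_mono S hG hA ?_ z).trans (vol_le_zero hK hsymm S z)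
    intro x
    by_cases hx : x ∈ K
    · rw [indicator_of_mem hx, indicator_of_mem hx]
      apply Real.exp_le_one_iff.mpr
      have := mul_nonneg hγ.le (hp0 x)
      linarith
    · rw [indicator_of_notMem hx, indicator_of_notMem hx]
  set c := Real.sqrt (M y / A 0) with hc
  have hc0 : 0 ≤ c := Real.sqrt_nonneg _
  have hc2 : c ^ 2 * A 0 = M y := by
    rw [hc, Real.sq_sqrt (div_nonneg (hM0 y) hA0.le)]
    field_simp
  have hpt : ∀ z : Sᗮ, c * N z ≤ M ((2:ℝ)⁻¹ • (y + z)) := by
    intro z
    apply le_of_sq_le_sq _ (hM0 _)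
    refine le_trans ?_ (hpl y z)
    have h1 : (c * N z) ^ 2 ≤ c ^ 2 * (N z * A 0) := by
      rw [mul_pow]
      apply mul_le_mul_of_nonneg_left _ (sq_nonneg c)
      rw [sq]
      exact mul_le_mul_of_nonneg_left (hNA z) (hN0 z)
    calc (c * N z) ^ 2 ≤ c ^ 2 * (N z * A 0) := h1
      _ = c ^ 2 * A 0 * N z := by ring
      _ = M y * N z := by rw [hc2]
  have hMi : Integrable M := sI_integrable S hF
  have hNi : Integrable N := sI_integrable S hG
  have hint := integral_mono (hNi.const_mul c) (integrable_half S hMi y) hpt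
  rw [integral_const_mul, integral_half S M y] at hint
  have hIM : ∫ z, M z ≤ 2 * volume.real K := by
    rw [hMd, integral_sI S hF, integral_indicator hK.meas]
    exact hM
  have hIN : volume.real K / 2 ≤ ∫ z, N z := by
    rw [hNd, integral_sI S hG, integral_indicator hK.meas]
    have hfi : IntegrableOn f K := (hK.bm_of_cont hfc).integrableOn hK
    have hgi : IntegrableOn g K := (hK.bm_of_cont hgc).integrableOn hK
    have hconst : IntegrableOn (fun _ : E => (1:ℝ)) K := integrableOn_const hK.lt_top.ne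
    have h1 : ∫ x in K, (1 - f x / 4) ≤ ∫ x in K, g x := by
      apply setIntegral_mono_on (hconst.sub (hfi.div_const 4)) hgi hK.meas
      intro x _
      have h2 : g x = (f x)⁻¹ := Real.exp_neg _
      have h3 : 0 < f x := Real.exp_pos _
      rw [h2, ← sub_nonneg]
      have : (f x)⁻¹ - (1 - f x / 4) = (f x - 2) ^ 2 / (4 * f x) := by
        field_simp
        ring
      show 0 ≤ (f x)⁻¹ - (1 - f x / 4)
      rw [this]
      positivity
    rw [integral_sub hconst (hfi.div_const 4), integral_div, setIntegral_const, smul_eq_mul,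
      mul_one] at h1
    linarith
  set d := Module.finrank ℝ Sᗮ with hd
  have hV : 0 < volume.real K := ENNReal.toReal_pos hK.vol0 hK.lt_top.ne
  have h2 : c ≤ 2 ^ (d + 2) := by
    have h3 : c * (volume.real K / 2) ≤ 2 ^ d * (2 * volume.real K) :=
      (mul_le_mul_of_nonneg_left hIN hc0).trans
        (hint.trans (mul_le_mul_of_nonneg_left hIM (by positivity)))
    have h4 : c * volume.real K ≤ 2 ^ (d + 2) * volume.real K := by
      rw [pow_add]
      linarith
    exact le_of_mul_le_mul_right h4 hV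
  calc M y = c ^ 2 * A 0 := hc2.symm
    _ ≤ (2 ^ (d + 2)) ^ 2 * A 0 := by
        apply mul_le_mul_of_nonneg_right (pow_le_pow_left₀ hc0 h2 2) hA0.le
    _ = 4 ^ (d + 2) * A 0 := by
        rw [← pow_mul, mul_comm (d + 2) 2, pow_mul]
        norm_num

end Pool.Agent.H84.Sym
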