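import Pool.Agent.H85.Sym.Q1

/-! Project SYM2, module Q2: truncation of a symmetric convex body. -/

set_option autoImplicit false
set_option linter.unusedSectionVars false
set_option linter.unusedVariables false

open MeasureTheory Set Filter Topology
open scoped ContDiff Pointwise ENNReal

namespace Pool.Agent.H84.Sym

open Pool.Agent.H84

universe v

variable {E : Type v} [NormedAddCommGroup E] [InnerProductSpace ℝ E]
    [FiniteDimensional ℝ E] [MeasurableSpace E] [BorelSpace E]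

namespace SecAux

/-- Open midpoint convex sets are convex. -/
theorem convex_of_open_midpoint {F : Type*} [NormedAddCommGroup F] [NormedSpace ℝ F] {U : Set F}
    (hU : IsOpen U) (hm : ∀ x ∈ U, ∀ y ∈ U, (2:ℝ)⁻¹ • (x + y) ∈ U) : Convex ℝ U := by
  -- dyadic points
  have hdy : ∀ n k : ℕ, k ≤ 2 ^ n → ∀ x ∈ U, ∀ y ∈ U,
      (1 - (k : ℝ) / 2 ^ n) • x + ((k : ℝ) / 2 ^ n) • y ∈ U := by
    intro n
    induction n with
    | zero =>
      intro k hk x hx y hy
      have hk' : k = 0 ∨ k = 1 := by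
        simp only [pow_zero] at hk
        omega
      rcases hk' with rfl | rfl
      · simpa using hx
      · simpa using hy
    | succ n ih =>
      intro k hk x hx y hy
      rw [pow_succ] at hk
      have h1 := ih (k / 2) (by omega) x hx y hy
      have h2 := ih ((k + 1) / 2) (by omega) x hx y hy
      have h3 := hm _ h1 _ h2
      have h4 : ((k / 2 : ℕ) : ℝ) + (((k + 1) / 2 : ℕ) : ℝ) = k := by
        rw [← Nat.cast_add]
        congr 1
        omega
      have h5 : (2:ℝ)⁻¹ • ((1 - ((k / 2 : ℕ) : ℝ) / 2 ^ n) • x + (((k / 2 : ℕ) : ℝ) / 2 ^ n) • y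
          + ((1 - (((k + 1) / 2 : ℕ) : ℝ) / 2 ^ n) • x + ((((k + 1) / 2 : ℕ) : ℝ) / 2 ^ n) • y))
          = (1 - (k : ℝ) / 2 ^ (n + 1)) • x + ((k : ℝ) / 2 ^ (n + 1)) • y := by
        rw [← h4, pow_succ]
        module
      rwa [h5] at h3
  rw [convex_iff_forall_pos]
  intro x hx y hy a b ha hb hab
  have ha' : a = 1 - b := by linarith
  subst ha'
  -- a dyadic number close to `b`
  have hcont : ContinuousAt (fun s : ℝ => (1 - s)⁻¹ • (((1 - b) • x + b • y) - s • y)) b := by
    have : (1 - b) ≠ 0 := ha.ne'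
    fun_prop (disch := assumption)
  have hval : (1 - b)⁻¹ • (((1 - b) • x + b • y) - b • y) = x := by
    rw [add_sub_cancel_right, smul_smul, inv_mul_cancel₀ ha.ne', one_smul]
  have hnb : ∀ᶠ s in 𝓝 b, (1 - s)⁻¹ • (((1 - b) • x + b • y) - s • y) ∈ U := by
    apply hcont.eventually
    apply hU.mem_nhds
    show (1 - b)⁻¹ • (((1 - b) • x + b • y) - b • y) ∈ U
    rw [hval]
    exact hx
  have hlt : ∀ᶠ s : ℝ in 𝓝 b, s < 1 := eventually_lt_nhds (by linarith)
  have hpos : ∀ᶠ s : ℝ in 𝓝 b, 0 < s := eventually_gt_nhds hb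
  obtain ⟨ε, hε, hball⟩ := Metric.eventually_nhds_iff.1 (hnb.and (hlt.and hpos))
  obtain ⟨n, hn⟩ := exists_pow_lt_of_lt_one hε (by norm_num : (2:ℝ)⁻¹ < 1)
  set k := ⌊b * 2 ^ n⌋₊ with hk
  have h2n : (0:ℝ) < 2 ^ n := by positivity
  have hk1 : (k : ℝ) ≤ b * 2 ^ n := Nat.floor_le (by positivity)
  have hk2 : b * 2 ^ n < k + 1 := Nat.lt_floor_add_one _
  have hdist : dist ((k : ℝ) / 2 ^ n) b < ε := by
    rw [Real.dist_eq, abs_sub_comm, abs_of_nonneg (by rw [sub_nonneg, div_le_iff₀ h2n]; exact hk1)]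
    refine lt_trans ?_ hn
    rw [inv_pow, ← one_div, sub_lt_iff_lt_add, ← add_div, lt_div_iff₀ h2n]
    linarith
  obtain ⟨h1, h2, h3⟩ := hball hdist
  have hkle : k ≤ 2 ^ n := by
    have : (k : ℝ) < 2 ^ n := by
      rw [div_lt_one h2n] at h2
      exact h2
    exact_mod_cast this.le
  have h4 := hdy n k hkle _ h1 y hy
  have hne : (1 - (k : ℝ) / 2 ^ n) ≠ 0 := by linarith
  rw [smul_smul, mul_inv_cancel₀ hne, one_smul, sub_add_cancel] at h4
  exact h4

/-- The volume of the sections of an open set is lower semicontinuous. -/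
theorem isOpen_vol {K : Set E} {R : ℝ} (hK : CB K R) (hKo : IsOpen K) (S : Submodule ℝ E)
    {c : ℝ} (hc : 0 ≤ c) : IsOpen {y : Sᗮ | c < sI S (K.indicator fun _ => 1) y} := by
  have hb : BB (K.indicator fun _ => (1:ℝ)) :=
    BB.of_ind hK continuous_const fun _ => zero_le_one
  have hcompl : {y : Sᗮ | c < sI S (K.indicator fun _ => 1) y}ᶜ =
      {y : Sᗮ | sI S (K.indicator fun _ => 1) y ≤ c} := by
    ext y
    simp
  rw [← isClosed_compl_iff, hcompl]
  apply IsSeqClosed.isClosed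
  intro u y hu hy
  have hlint : ∀ z : Sᗮ, ENNReal.ofReal (sI S (K.indicator fun _ => 1) z) =
      ∫⁻ s : S, ENNReal.ofReal (K.indicator (fun _ => (1:ℝ)) ((s : E) + (z : E))) := fun z =>
    ofReal_integral_eq_lintegral_ofReal (hb.sec S z).integrable
      (Eventually.of_forall (hb.sec S z).nn)
  have hfatou := lintegral_liminf_le (μ := (volume : Measure S)) (u := atTop)
    (f := fun (n : ℕ) (s : S) =>
      ENNReal.ofReal (K.indicator (fun _ => (1:ℝ)) ((s : E) + (u n : E))))
    (fun n => (hb.sec S (u n : E)).meas.ennreal_ofReal)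
  have h1 : ENNReal.ofReal (sI S (K.indicator fun _ => 1) y) ≤
      ∫⁻ s : S, liminf (fun n : ℕ =>
        ENNReal.ofReal (K.indicator (fun _ => (1:ℝ)) ((s : E) + (u n : E)))) atTop := by
    rw [hlint]
    apply lintegral_mono
    intro s
    by_cases hs : (s : E) + (y : E) ∈ K
    · have hev : ∀ᶠ n in atTop, (s : E) + (u n : E) ∈ K := by
        have ht : Tendsto (fun n => (s : E) + (u n : E)) atTop (𝓝 ((s : E) + (y : E))) :=
          tendsto_const_nhds.add ((continuous_subtype_val.tendsto y).comp hy)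
        exact ht.eventually (hKo.mem_nhds hs)
      have : liminf (fun n : ℕ =>
          ENNReal.ofReal (K.indicator (fun _ => (1:ℝ)) ((s : E) + (u n : E)))) atTop = 1 := by
        have h2 : (fun n : ℕ =>
            ENNReal.ofReal (K.indicator (fun _ => (1:ℝ)) ((s : E) + (u n : E))))
            =ᶠ[atTop] fun _ => (1:ℝ≥0∞) := by
          filter_upwards [hev] with n hn
          rw [indicator_of_mem hn, ENNReal.ofReal_one]
        rw [liminf_congr h2, liminf_const]
      simp only [this]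
      rw [indicator_of_mem hs, ENNReal.ofReal_one]
    · show ENNReal.ofReal (K.indicator (fun _ => (1:ℝ)) ((s : E) + (y : E))) ≤ _
      rw [indicator_of_notMem hs, ENNReal.ofReal_zero]
      exact zero_le
  have h2 : liminf (fun n : ℕ => ∫⁻ s : S,
      ENNReal.ofReal (K.indicator (fun _ => (1:ℝ)) ((s : E) + (u n : E)))) atTop ≤
        ENNReal.ofReal c := by
    have h3 : ∀ n : ℕ, ∫⁻ s : S,
      ENNReal.ofReal (K.indicator (fun _ => (1:ℝ)) ((s : E) + (u n : E))) ≤ ENNReal.ofReal c := by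
      intro n
      rw [← hlint]
      exact ENNReal.ofReal_le_ofReal (hu n)
    calc _ ≤ liminf (fun _ : ℕ => ENNReal.ofReal c) atTop :=
          liminf_le_liminf (Eventually.of_forall h3)
      _ = _ := liminf_const _
  have h5 := (h1.trans hfatou).trans h2
  exact (ENNReal.ofReal_le_ofReal_iff hc).1 h5

/-- The superlevel sets of the volume of the sections are convex. -/
theorem convex_vol {K : Set E} {R : ℝ} (hK : CB K R) (hKo : IsOpen K) (S : Submodule ℝ E)
    {c : ℝ} (hc : 0 ≤ c) : Convex ℝ {y : Sᗮ | c < sI S (K.indicator fun _ => 1) y} := by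
  have hb : BB (K.indicator fun _ => (1:ℝ)) :=
    BB.of_ind hK continuous_const fun _ => zero_le_one
  apply convex_of_open_midpoint (isOpen_vol hK hKo S hc)
  intro x hx y hy
  have h := vol_pl hK S x y
  simp only [mem_ofPred_eq] at hx hy ⊢
  have h1 : c ^ 2 < sI S (K.indicator fun _ => 1) ((2:ℝ)⁻¹ • (x + y)) ^ 2 := by
    refine lt_of_lt_of_le ?_ h
    rw [sq]
    exact mul_lt_mul'' hx hy hc hc
  exact lt_of_pow_lt_pow_left₀ 2 (sI_nonneg S hb _) h1

/-- The orthogonal projection of a vector decomposed along `S` and `Sᗮ`. -/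
theorem proj_add (S : Submodule ℝ E) (x : S) (y : Sᗮ) :
    Sᗮ.orthogonalProjectionOnto ((x : E) + (y : E)) = y := by
  rw [map_add, Submodule.orthogonalProjectionOnto_mem_subspace_eq_self]
  have : Sᗮ.orthogonalProjectionOnto (x : E) = 0 := by
    rw [Submodule.orthogonalProjectionOnto_eq_zero_iff]
    exact S.le_orthogonal_orthogonal x.2
  rw [this, zero_add]

/-- An isometry fixing `Sᗮ` does not change the projection. -/
theorem proj_isom (S : Submodule ℝ E) (g : E ≃ₗᵢ[ℝ] E) (hg : ∀ z ∈ Sᗮ, g z = z) (x : E) :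
    Sᗮ.orthogonalProjectionOnto (g x) = Sᗮ.orthogonalProjectionOnto x := by
  rw [← sub_eq_zero, ← map_sub]
  rw [Submodule.orthogonalProjectionOnto_eq_zero_iff, Submodule.mem_orthogonal]
  intro w hw
  rw [inner_sub_right]
  have : inner ℝ w (g x) = inner ℝ w x := by
    have h := g.inner_map_map w x
    rwa [hg w hw] at h
  rw [this, sub_self]

/-- Integral of a function over a set described through the projection. -/
theorem integral_ind_proj (S : Submodule ℝ E) {K : Set E} {R : ℝ} (hK : CB K R) {B : Set Sᗮ}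
    (hB : MeasurableSet B) :
    volume.real (K ∩ {x | Sᗮ.orthogonalProjectionOnto x ∈ B}) =
      ∫ y in B, sI S (K.indicator fun _ => 1) y := by
  have hm : MeasurableSet {x : E | Sᗮ.orthogonalProjectionOnto x ∈ B} :=
    hB.preimage (by fun_prop : Measurable fun x : E => Sᗮ.orthogonalProjectionOnto x)
  have hKB : MeasurableSet (K ∩ {x | Sᗮ.orthogonalProjectionOnto x ∈ B}) := hK.meas.inter hm
  have hb : BB (K.indicator fun _ => (1:ℝ)) :=
    BB.of_ind hK continuous_const fun _ => zero_le_one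
  have hb' : BB ((K ∩ {x | Sᗮ.orthogonalProjectionOnto x ∈ B}).indicator fun _ => (1:ℝ)) := by
    refine ⟨measurable_const.indicator hKB, fun x => indicator_nonneg (fun _ _ => zero_le_one) x,
      ⟨1, fun x => indicator_le_self' (fun _ _ => zero_le_one) x⟩, ⟨R, fun x hx => ?_⟩⟩
    apply indicator_of_notMem
    intro h
    have := hK.sub h.1
    rw [mem_closedBall_zero_iff] at this
    linarith
  have h1 := integral_sI S hb'
  rw [integral_indicator hKB, setIntegral_const, smul_eq_mul, mul_one] at h1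
  rw [← h1, ← integral_indicator hB]
  congr 1
  funext y
  unfold sI
  by_cases hy : y ∈ B
  · rw [indicator_of_mem hy]
    congr 1
    funext s
    by_cases hs : (s : E) + (y : E) ∈ K
    · rw [indicator_of_mem hs, indicator_of_mem]
      exact ⟨hs, by rw [mem_ofPred_eq, proj_add]; exact hy⟩
    · rw [indicator_of_notMem hs, indicator_of_notMem]
      exact fun h => hs h.1
  · rw [indicator_of_notMem hy]
    have : ∀ s : S, (K ∩ {x | Sᗮ.orthogonalProjectionOnto x ∈ B}).indicator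
        (fun _ => (1:ℝ)) ((s : E) + (y : E)) = 0 := by
      intro s
      apply indicator_of_notMem
      rintro ⟨_, h⟩
      rw [mem_ofPred_eq, proj_add] at h
      exact hy h
    simp [this]

/-- The sections of small volume carry at most one eighth of the body. -/
theorem bad_small {K : Set E} {R : ℝ} (hK : CB K R) (hKo : IsOpen K) (S : Submodule ℝ E) {d : ℕ}
    (hd : Module.finrank ℝ Sᗮ ≤ d) :
    volume.real (K ∩ {x | Sᗮ.orthogonalProjectionOnto x ∈ {y : Sᗮ |
      sI S (K.indicator fun _ => 1) 0 / 4 ^ (d + 3) < sI S (K.indicator fun _ => 1) y}ᶜ}) ≤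
        volume.real K / 8 := by
  have hb : BB (K.indicator fun _ => (1:ℝ)) :=
    BB.of_ind hK continuous_const fun _ => zero_le_one
  set A := sI S (K.indicator fun _ => (1:ℝ)) with hA
  have hA0 : ∀ y, 0 ≤ A y := sI_nonneg S hb
  have h4 : (0:ℝ) < 4 ^ (d + 3) := by positivity
  set B : Set Sᗮ := {y : Sᗮ | A 0 / 4 ^ (d + 3) < A y}ᶜ with hBd
  have hB : MeasurableSet B :=
    (isOpen_vol hK hKo S (div_nonneg (hA0 0) h4.le)).measurableSet.compl
  rw [integral_ind_proj S hK hB]
  have hAi : Integrable A := sI_integrable S hb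
  have hI : ∫ y, A y = volume.real K := by
    rw [hA, integral_sI S hb, integral_indicator hK.meas, setIntegral_const, smul_eq_mul, mul_one]
  have hpt : ∀ y ∈ B, 2 ^ (d + 3) * A y ≤ A ((2:ℝ)⁻¹ • ((0:Sᗮ) + y)) := by
    intro y hy
    have hy' : A y ≤ A 0 / 4 ^ (d + 3) := by
      simpa [hBd] using hy
    rw [le_div_iff₀ h4] at hy'
    apply le_of_sq_le_sq _ (hA0 _)
    refine le_trans ?_ (vol_pl hK S 0 y)
    have e : (2:ℝ) ^ (d + 3) * 2 ^ (d + 3) = 4 ^ (d + 3) := by
      rw [← mul_pow]; norm_num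
    calc (2 ^ (d + 3) * A y) ^ 2 = (A y * 4 ^ (d + 3)) * A y := by
          rw [← e]; ring
      _ ≤ A 0 * A y := mul_le_mul_of_nonneg_right hy' (hA0 y)
  have h1 : ∫ y in B, 2 ^ (d + 3) * A y ≤ ∫ y in B, A ((2:ℝ)⁻¹ • ((0:Sᗮ) + y)) :=
    setIntegral_mono_on (hAi.const_mul _).integrableOn (integrable_half S hAi 0).integrableOn hB hpt
  have h2 : ∫ y in B, A ((2:ℝ)⁻¹ • ((0:Sᗮ) + y)) ≤ ∫ y, A ((2:ℝ)⁻¹ • ((0:Sᗮ) + y)) :=
    setIntegral_le_integral (integrable_half S hAi 0) (Eventually.of_forall fun y => hA0 _)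
  rw [integral_half S A 0, hI] at h2
  rw [integral_const_mul] at h1
  have h3 : (2:ℝ) ^ (Module.finrank ℝ Sᗮ) ≤ 2 ^ d := pow_le_pow_right₀ (by norm_num) hd
  have hV : 0 ≤ volume.real K := measureReal_nonneg
  have h5 := mul_le_mul_of_nonneg_right h3 hV
  have h6 : (2:ℝ) ^ d * (8 * ∫ y in B, A y) ≤ 2 ^ d * volume.real K := by
    calc (2:ℝ) ^ d * (8 * ∫ y in B, A y) = 2 ^ (d + 3) * ∫ y in B, A y := by
          rw [pow_add]; ring
      _ ≤ _ := h1.trans (h2.trans h5)
  have h7 := le_of_mul_le_mul_left h6 (by positivity)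
  linarith

/-- Chebyshev's inequality. -/
theorem cheb {K : Set E} {R : ℝ} (hK : CB K R) (S : Submodule ℝ E) {d : ℕ}
    (hd : Module.finrank ℝ Sᗮ ≤ d)
    (hcov : ∫ x in K, ‖Sᗮ.orthogonalProjectionOnto x‖ ^ 2 ≤ d * volume.real K) :
    volume.real (K ∩ {x | ‖Sᗮ.orthogonalProjectionOnto x‖ ^ 2 ≤ 8 * d}ᶜ) ≤ volume.real K / 8 := by
  have hV : 0 ≤ volume.real K := measureReal_nonneg
  rcases Nat.eq_zero_or_pos d with rfl | hd0
  · have h0 : Module.finrank ℝ Sᗮ = 0 := by omega
    have : Subsingleton Sᗮ := Module.finrank_zero_iff.1 h0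
    have : K ∩ {x | ‖Sᗮ.orthogonalProjectionOnto x‖ ^ 2 ≤ 8 * ((0:ℕ):ℝ)}ᶜ = ∅ := by
      apply eq_empty_of_forall_notMem
      rintro x ⟨_, hx⟩
      apply hx
      rw [mem_ofPred_eq, Subsingleton.elim (Sᗮ.orthogonalProjectionOnto x) 0]
      simp
    rw [this, measureReal_empty]
    positivity
  · have hd' : (0:ℝ) < d := by exact_mod_cast hd0
    have hqc : Continuous (fun x : E => ‖Sᗮ.orthogonalProjectionOnto x‖ ^ 2) := by fun_prop
    have hm : MeasurableSet {x : E | ‖Sᗮ.orthogonalProjectionOnto x‖ ^ 2 ≤ 8 * (d:ℝ)} :=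
      measurableSet_le hqc.measurable measurable_const
    have hint : IntegrableOn (fun x : E => ‖Sᗮ.orthogonalProjectionOnto x‖ ^ 2) K :=
      (hK.bm_of_cont hqc).integrableOn hK
    have h1 : volume.real (K ∩ {x | ‖Sᗮ.orthogonalProjectionOnto x‖ ^ 2 ≤ 8 * (d:ℝ)}ᶜ) * (8 * d)
        ≤ d * volume.real K := by
      calc _ = ∫ x in K ∩ {x | ‖Sᗮ.orthogonalProjectionOnto x‖ ^ 2 ≤ 8 * (d:ℝ)}ᶜ,
              (8 * (d:ℝ)) := by rw [setIntegral_const, smul_eq_mul]
        _ ≤ ∫ x in K ∩ {x | ‖Sᗮ.orthogonalProjectionOnto x‖ ^ 2 ≤ 8 * (d:ℝ)}ᶜ,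
              ‖Sᗮ.orthogonalProjectionOnto x‖ ^ 2 := by
            apply setIntegral_mono_on
            · exact integrableOn_const ((measure_mono inter_subset_left).trans_lt hK.lt_top).ne
            · exact hint.mono_set inter_subset_left
            · exact hK.meas.inter hm.compl
            · intro x hx
              have := hx.2
              simp only [mem_compl_iff, mem_ofPred_eq, not_le] at this
              exact this.le
        _ ≤ ∫ x in K, ‖Sᗮ.orthogonalProjectionOnto x‖ ^ 2 :=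
            setIntegral_mono_set hint (Eventually.of_forall fun x => by positivity)
              (inter_subset_left).eventuallyLE
        _ ≤ _ := hcov
    have h2 : volume.real (K ∩ {x | ‖Sᗮ.orthogonalProjectionOnto x‖ ^ 2 ≤ 8 * (d:ℝ)}ᶜ) * 8 * d
        ≤ volume.real K * d := by linarith
    have := le_of_mul_le_mul_right h2 hd'
    linarith

end SecAux

open SecAux

theorem exists_trunc {K : Set E} {R : ℝ} (hK : CB K R) (hKo : IsOpen K)
    (hsymm : ∀ x ∈ K, -x ∈ K) (S : Submodule ℝ E) {d : ℕ} (hd : Module.finrank ℝ Sᗮ ≤ d)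
    (hcov : ∫ x in K, ‖Sᗮ.orthogonalProjectionOnto x‖ ^ 2 ≤ d * volume.real K) :
    ∃ K' : Set E, K' ⊆ K ∧ Convex ℝ K' ∧ MeasurableSet K' ∧
      3 / 4 * volume.real K ≤ volume.real K' ∧
      (∀ x ∈ K', ‖Sᗮ.orthogonalProjectionOnto x‖ ^ 2 ≤ 8 * d) ∧
      (∀ g : E ≃ₗᵢ[ℝ] E, g '' K = K → (∀ z ∈ Sᗮ, g z = z) → g '' K' = K') ∧
      ∀ y : Sᗮ, {x : S | (x : E) + (y : E) ∈ K'} = ∅ ∨
        ({x : S | (x : E) + (y : E) ∈ K'} = {x : S | (x : E) + (y : E) ∈ K} ∧
          volume.real {x : S | (x : E) ∈ K} ≤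
            4 ^ (d + 3) * volume.real {x : S | (x : E) + (y : E) ∈ K}) := by
  have hb : BB (K.indicator fun _ => (1:ℝ)) :=
    BB.of_ind hK continuous_const fun _ => zero_le_one
  set A := sI S (K.indicator fun _ => (1:ℝ)) with hA
  have hA0 : ∀ y, 0 ≤ A y := sI_nonneg S hb
  have h4 : (0:ℝ) < 4 ^ (d + 3) := by positivity
  set Gd : Set Sᗮ := {y : Sᗮ | A 0 / 4 ^ (d + 3) < A y} with hGd
  have hGo : IsOpen Gd := isOpen_vol hK hKo S (div_nonneg (hA0 0) h4.le)
  have hGc : Convex ℝ Gd := convex_vol hK hKo S (div_nonneg (hA0 0) h4.le)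
  set P1 : Set E := {x | Sᗮ.orthogonalProjectionOnto x ∈ Gd} with hP1
  set P2 : Set E := {x | ‖Sᗮ.orthogonalProjectionOnto x‖ ^ 2 ≤ 8 * (d:ℝ)} with hP2
  have hqc : Continuous (fun x : E => ‖Sᗮ.orthogonalProjectionOnto x‖ ^ 2) := by fun_prop
  have hP1m : MeasurableSet P1 := hGo.measurableSet.preimage
    (by fun_prop : Measurable fun x : E => Sᗮ.orthogonalProjectionOnto x)
  have hP2m : MeasurableSet P2 := measurableSet_le hqc.measurable measurable_const
  have hP1c : Convex ℝ P1 :=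
    hGc.linear_preimage (Sᗮ.orthogonalProjectionOnto : E →L[ℝ] Sᗮ).toLinearMap
  have hP2c : Convex ℝ P2 := by
    have h1 : P2 = (Sᗮ.orthogonalProjectionOnto : E →L[ℝ] Sᗮ).toLinearMap ⁻¹'
        Metric.closedBall 0 (Real.sqrt (8 * d)) := by
      ext x
      simp only [hP2, mem_ofPred_eq, mem_preimage, mem_closedBall_zero_iff]
      exact (Real.le_sqrt (norm_nonneg _) (by positivity)).symm
    rw [h1]
    exact (convex_closedBall _ _).linear_preimage _
  refine ⟨K ∩ P1 ∩ P2, fun x hx => hx.1.1, (hK.conv.inter hP1c).inter hP2c,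
    (hK.meas.inter hP1m).inter hP2m, ?_, fun x hx => hx.2, ?_, ?_⟩
  · have h1 := bad_small hK hKo S hd
    have h2 := cheb hK S hd hcov
    have h3 : K ⊆ (K ∩ P1 ∩ P2) ∪ ((K ∩ {x | Sᗮ.orthogonalProjectionOnto x ∈ Gdᶜ}) ∪
        (K ∩ P2ᶜ)) := by
      intro x hx
      by_cases h1 : x ∈ P1
      · by_cases h2 : x ∈ P2
        · exact Or.inl ⟨⟨hx, h1⟩, h2⟩
        · exact Or.inr (Or.inr ⟨hx, h2⟩)
      · exact Or.inr (Or.inl ⟨hx, h1⟩)
    have hlt : ∀ T : Set E, volume (K ∩ T) ≠ ⊤ := fun T =>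
      ((measure_mono inter_subset_left).trans_lt hK.lt_top).ne
    have h5 : volume.real K ≤ volume.real (K ∩ P1 ∩ P2) +
        (volume.real (K ∩ {x | Sᗮ.orthogonalProjectionOnto x ∈ Gdᶜ}) +
          volume.real (K ∩ P2ᶜ)) := by
      refine (measureReal_mono h3 ?_).trans ((measureReal_union_le _ _).trans
        (add_le_add le_rfl (measureReal_union_le _ _)))
      apply measure_union_ne_top
      · rw [inter_assoc]
        exact hlt _
      · exact measure_union_ne_top (hlt _) (hlt _)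
    linarith
  · intro g hgK hgS
    have hpr : ∀ x, Sᗮ.orthogonalProjectionOnto (g x) = Sᗮ.orthogonalProjectionOnto x :=
      proj_isom S g hgS
    have hgK' : ∀ x, g x ∈ K ↔ x ∈ K := by
      intro x
      constructor
      · intro h
        rw [← hgK] at h
        obtain ⟨x', hx', he⟩ := h
        rwa [← g.injective he]
      · intro h
        rw [← hgK]
        exact ⟨x, h, rfl⟩
    have hiff : ∀ x, g x ∈ K ∩ P1 ∩ P2 ↔ x ∈ K ∩ P1 ∩ P2 := by
      intro x
      simp only [hP1, hP2, mem_inter_iff, mem_ofPred_eq, hpr, hgK']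
    ext x
    constructor
    · rintro ⟨x', hx', rfl⟩
      exact (hiff x').2 hx'
    · intro hx
      refine ⟨g.symm x, ?_, g.apply_symm_apply x⟩
      rw [← hiff, g.apply_symm_apply]
      exact hx
  · intro y
    by_cases hy : y ∈ Gd ∧ ‖y‖ ^ 2 ≤ 8 * (d:ℝ)
    · right
      constructor
      · ext x
        simp only [hP1, hP2, mem_ofPred_eq, mem_inter_iff, proj_add]
        exact ⟨fun h => h.1.1, fun h => ⟨⟨h, hy.1⟩, hy.2⟩⟩
      · have e2 : volume.real {x : S | (x : E) ∈ K} = A 0 := by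
          have := vol_sec S hK.meas (0 : Sᗮ)
          simpa using this
        rw [e2, vol_sec S hK.meas y]
        have h1 : A 0 / 4 ^ (d + 3) < A y := hy.1
        rw [div_lt_iff₀ h4] at h1
        rw [mul_comm]
        exact h1.le
    · left
      ext x
      simp only [hP1, hP2, mem_ofPred_eq, mem_inter_iff, proj_add, mem_empty_iff_false, iff_false]
      rintro ⟨⟨_, h1⟩, h2⟩
      exact hy ⟨h1, h2⟩

end Pool.Agent.H84.Sym
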