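import Pool.Agent.H85.Sym.G2a
import Pool.Agent.H16.Sym.G1
import Pool.Agent.H29.Sym.C

/-! Modules G1 and G2 of project SYM: the fibre inequalities, final form. -/

set_option autoImplicit false

open MeasureTheory Set Filter Topology
open scoped ContDiff Pointwise

namespace Pool.Agent.H84.Sym

open Pool.Agent.H84

variable {E : Type*} [NormedAddCommGroup E] [InnerProductSpace ℝ E]
    [FiniteDimensional ℝ E] [MeasurableSpace E] [BorelSpace E]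

theorem fibre_pc {V : E → ℝ} {t C β : ℝ} {m : ℕ} (hV : Pot V t C) (hβ : 0 < β)
    (hmin : ∀ x : E, 0 ≤ fderiv ℝ V x x) (hm : Module.finrank ℝ E ≤ m) (hm1 : 1 ≤ m) :
    GPC (mu (fun x => V x + 2 * β * Real.sqrt ((m / β) ^ 2 + ‖x‖ ^ 2))) (20 * m / β ^ 2) :=
  fibre_pc_of (fun b {_ _ _ _} hU hk hco => gpc_of_coer b hU hk hco) hV hβ hmin hm hm1

theorem fibre_ineq {U : E → ℝ} {t C β : ℝ} {m : ℕ} (hU : Pot U t C) (g : E ≃ₗᵢ[ℝ] E)
    (hg : ∀ x, U (g x) = U x) (hβ : 0 < β)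
    (hm : Module.finrank ℝ (Mv (g.toLinearEquiv : E →ₗ[ℝ] E)) ≤ m) (hm1 : 1 ≤ m)
    {u : E → ℝ} (hu : Tst u) :
    ∫ x, (u (g x) - u x) ^ 2 * om (Mv (g.toLinearEquiv : E →ₗ[ℝ] E)) m β x ∂(mu U) ≤
      20 * m / β ^ 2 *
        ∫ x, ‖(fderiv ℝ (fun y => u (g y) - u y) x).comp
          (Mv (g.toLinearEquiv : E →ₗ[ℝ] E)).subtypeL‖ ^ 2
            * om (Mv (g.toLinearEquiv : E →ₗ[ℝ] E)) m β x ∂(mu U) :=
  fibre_ineq_of (fun _ _ _ _ _ _ _ _ _ _ _ hV hβ hmin hm hm1 => fibre_pc hV hβ hmin hm hm1)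
    hU g hg hβ hm hm1 hu

end Pool.Agent.H84.Sym
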