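import Pool.Agent.H84.Sym.Defs2
import Pool.Agent.H84.PrekopaLeindler
import Pool.Agent.H85.Sym.G2a

/-! Project SYM2, common part of the modules Q1 and Q2: integrals over the sections of a body and
the Prekopa-Leindler inequality between them. -/

set_option autoImplicit false
set_option linter.unusedSectionVars false

open MeasureTheory Set Filter Topology
open scoped ContDiff Pointwise ENNReal

namespace Pool.Agent.H84.Sym

open Pool.Agent.H84

universe v

variable {E : Type v} [NormedAddCommGroup E] [InnerProductSpace ℝ E]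
    [FiniteDimensional ℝ E] [MeasurableSpace E] [BorelSpace E]

namespace SecAux

/-- Bounded nonnegative measurable functions with bounded support. -/
structure BB {H : Type*} [NormedAddCommGroup H] [MeasurableSpace H] (F : H → ℝ) : Prop where
  meas : Measurable F
  nn : ∀ x, 0 ≤ F x
  bdd : ∃ M, ∀ x, F x ≤ M
  supp : ∃ R, ∀ x, R < ‖x‖ → F x = 0

theorem BB.integrable {H : Type*} [NormedAddCommGroup H] [InnerProductSpace ℝ H]
    [FiniteDimensional ℝ H] [MeasurableSpace H] [BorelSpace H] {F : H → ℝ} (hF : BB F) :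
    Integrable F := by
  obtain ⟨M, hM⟩ := hF.bdd
  obtain ⟨R, hR⟩ := hF.supp
  have h1 : IntegrableOn F (Metric.closedBall (0 : H) R) := by
    apply Measure.integrableOn_of_bounded (M := M)
      (isCompact_closedBall (0 : H) R).measure_lt_top.ne hF.meas.aestronglyMeasurable
    exact Eventually.of_forall fun x => by
      rw [Real.norm_of_nonneg (hF.nn x)]
      exact hM x
  refine (integrableOn_iff_integrable_of_support_subset ?_).1 h1
  intro x hx
  rw [mem_closedBall_zero_iff]
  by_contra hcon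
  push Not at hcon
  exact hx (hR x hcon)

theorem BB.sec (S : Submodule ℝ E) {F : E → ℝ} (hF : BB F) (y : E) :
    BB (fun s : S => F ((s : E) + y)) := by
  obtain ⟨M, hM⟩ := hF.bdd
  obtain ⟨R, hR⟩ := hF.supp
  refine ⟨hF.meas.comp (by fun_prop), fun s => hF.nn _, ⟨M, fun s => hM _⟩, ⟨R + ‖y‖, ?_⟩⟩
  intro s hs
  apply hR
  have h1 : ‖(s : E)‖ ≤ ‖(s : E) + y‖ + ‖y‖ := by
    have := norm_sub_le ((s : E) + y) y
    rwa [add_sub_cancel_right] at this
  have h2 : ‖s‖ = ‖(s : E)‖ := rfl
  linarith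

/-- Indicator of a bounded set times a continuous positive function. -/
theorem BB.of_ind {K : Set E} {R : ℝ} (hK : CB K R) {f : E → ℝ} (hf : Continuous f)
    (hf0 : ∀ x, 0 ≤ f x) : BB (K.indicator f) := by
  obtain ⟨M, hM⟩ := hK.bdd_of_cont hf
  refine ⟨hf.measurable.indicator hK.meas, fun x => indicator_nonneg (fun y _ => hf0 y) x,
    ⟨|M|, fun x => ?_⟩, ⟨R, fun x hx => ?_⟩⟩
  · by_cases h : x ∈ K
    · rw [indicator_of_mem h]
      exact (le_abs_self _).trans ((hM x h).trans (le_abs_self _))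
    · rw [indicator_of_notMem h]
      exact abs_nonneg _
  · apply indicator_of_notMem
    intro h
    have := hK.sub h
    rw [mem_closedBall_zero_iff] at this
    linarith

/-- The integral over the section. -/
noncomputable def sI (S : Submodule ℝ E) (F : E → ℝ) (y : Sᗮ) : ℝ :=
  ∫ s : S, F ((s : E) + (y : E))

theorem sI_nonneg (S : Submodule ℝ E) {F : E → ℝ} (hF : BB F) (y : Sᗮ) : 0 ≤ sI S F y :=
  integral_nonneg fun _ => hF.nn _

theorem sI_integrable (S : Submodule ℝ E) {F : E → ℝ} (hF : BB F) : Integrable (sI S F) :=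
  (G2aux.integral_decomp S hF.integrable).2

theorem integral_sI (S : Submodule ℝ E) {F : E → ℝ} (hF : BB F) :
    ∫ y, sI S F y = ∫ x, F x := (G2aux.integral_decomp S hF.integrable).1.symm

theorem sI_mono (S : Submodule ℝ E) {F G : E → ℝ} (hF : BB F) (hG : BB G) (h : ∀ x, F x ≤ G x)
    (y : Sᗮ) : sI S F y ≤ sI S G y :=
  integral_mono (hF.sec S y).integrable (hG.sec S y).integrable fun _ => h _

/-- The Prekopa-Leindler inequality between sections. -/
theorem pl_sec (S : Submodule ℝ E) {F G H : E → ℝ} (hF : BB F) (hG : BB G) (hH : BB H)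
    (h : ∀ u v, F u * G v ≤ H ((2:ℝ)⁻¹ • (u + v)) ^ 2) (y y' : Sᗮ) :
    sI S F y * sI S G y' ≤ sI S H ((2:ℝ)⁻¹ • (y + y')) ^ 2 := by
  have hF' := hF.sec S (y : E)
  have hG' := hG.sec S (y' : E)
  have hH' := hH.sec S (((2:ℝ)⁻¹ • (y + y') : Sᗮ) : E)
  have key := pl_inner S (fun s => ENNReal.ofReal (F ((s : E) + (y : E))))
    (fun s => ENNReal.ofReal (G ((s : E) + (y' : E))))
    (fun s => ENNReal.ofReal (H ((s : E) + (((2:ℝ)⁻¹ • (y + y') : Sᗮ) : E))))
    hF'.meas.ennreal_ofReal hG'.meas.ennreal_ofReal hH'.meas.ennreal_ofReal ?_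
  · rw [← ofReal_integral_eq_lintegral_ofReal hF'.integrable (Eventually.of_forall hF'.nn),
      ← ofReal_integral_eq_lintegral_ofReal hG'.integrable (Eventually.of_forall hG'.nn),
      ← ofReal_integral_eq_lintegral_ofReal hH'.integrable (Eventually.of_forall hH'.nn),
      ← ENNReal.ofReal_mul (integral_nonneg hF'.nn),
      ← ENNReal.ofReal_pow (integral_nonneg hH'.nn)] at key
    exact (ENNReal.ofReal_le_ofReal_iff (by positivity)).1 key
  · intro a b
    rw [← ENNReal.ofReal_mul (hF.nn _), ← ENNReal.ofReal_pow (hH.nn _)]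
    apply ENNReal.ofReal_le_ofReal
    have := h ((a : E) + (y : E)) ((b : E) + (y' : E))
    have e : (2:ℝ)⁻¹ • ((a : E) + (y : E) + ((b : E) + (y' : E)))
        = (((2:ℝ)⁻¹ • (a + b) : S) : E) + (((2:ℝ)⁻¹ • (y + y') : Sᗮ) : E) := by
      simp only [Submodule.coe_smul, Submodule.coe_add]
      module
    rwa [e] at this

/-- Integral over a half translate. -/
theorem integral_half (S : Submodule ℝ E) (f : Sᗮ → ℝ) (y : Sᗮ) :
    ∫ y' : Sᗮ, f ((2:ℝ)⁻¹ • (y + y')) = 2 ^ (Module.finrank ℝ Sᗮ) * ∫ w, f w := by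
  have h1 : ∫ y' : Sᗮ, f ((2:ℝ)⁻¹ • (y + y')) = ∫ y' : Sᗮ, f ((2:ℝ)⁻¹ • y') :=
    integral_add_left_eq_self (fun y' : Sᗮ => f ((2:ℝ)⁻¹ • y')) y
  rw [h1, Measure.integral_comp_smul, smul_eq_mul, inv_pow, inv_inv, abs_of_pos (by positivity)]

theorem integrable_half (S : Submodule ℝ E) {f : Sᗮ → ℝ} (hf : Integrable f) (y : Sᗮ) :
    Integrable (fun y' : Sᗮ => f ((2:ℝ)⁻¹ • (y + y'))) := by
  have h2 : Integrable (fun y' : Sᗮ => f ((2:ℝ)⁻¹ • y')) := hf.comp_smul (by norm_num)
  exact h2.comp_add_left y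

/-- Section integrals as set integrals. -/
theorem setIntegral_sec (S : Submodule ℝ E) {K : Set E} (hK : MeasurableSet K) (f : E → ℝ)
    (y : Sᗮ) : ∫ x : S in {x : S | (x : E) + (y : E) ∈ K}, f ((x : E) + (y : E)) =
      sI S (K.indicator f) y := by
  have hm : MeasurableSet {x : S | (x : E) + (y : E) ∈ K} :=
    hK.preimage (by fun_prop : Measurable fun x : S => (x : E) + (y : E))
  unfold sI
  rw [← integral_indicator hm]
  rfl

theorem vol_sec (S : Submodule ℝ E) {K : Set E} (hK : MeasurableSet K) (y : Sᗮ) :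
    volume.real {x : S | (x : E) + (y : E) ∈ K} = sI S (K.indicator fun _ => 1) y := by
  rw [← setIntegral_sec S hK (fun _ => 1) y, setIntegral_const, smul_eq_mul, mul_one]

end SecAux

end Pool.Agent.H84.Sym
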